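import Pool.Agent.K1H49.PL.Gen

/-! # Project PL, piece BTI: the tree of binary sequences of length `< Λ` is a long binary tree -/

set_option autoImplicit false

namespace Pool.Agent.K1H79.PL.Bti

open Pool.Agent.K1H49.PL

section

variable {Λ : Type} [LinearOrder Λ]

theorem tr {d d' : Bool} {a b c : TI Λ} (h : tlt Λ d a b) (h' : tlt Λ d' b c) : tlt Λ d a c := by
  obtain ⟨h1, h2, h3⟩ := h
  obtain ⟨k1, k2, k3⟩ := h'
  refine ⟨h1.trans k1, fun x hx => ?_, ?_⟩
  · rw [k2 x (hx.trans h1), h2 x hx]
  · rw [k2 _ h1, h3]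

theorem filt (s : List Λ) (hs : s.Pairwise (· < ·)) (x y : Λ) (hx : x ∈ s) (hxy : x < y) :
    (s.filter (fun c => decide (c < x))) ++ [x] <+: s.filter (fun c => decide (c < y)) := by
  induction s with
  | nil => simp at hx
  | cons h t ih =>
    rw [List.pairwise_cons] at hs
    rcases List.mem_cons.1 hx with rfl | hxt
    · have h1 : (x :: t).filter (fun c => decide (c < x)) = [] := by
        rw [List.filter_eq_nil_iff]
        intro c hc
        rcases List.mem_cons.1 hc with rfl | hc
        · simp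
        · simpa using (hs.1 c hc).le
      rw [h1, List.filter_cons_of_pos (by simpa using hxy)]
      exact ⟨_, rfl⟩
    · have h1 := hs.1 x hxt
      rw [List.filter_cons_of_pos (by simpa using h1), List.filter_cons_of_pos (by simpa using h1.trans hxy),
        List.cons_append]
      obtain ⟨u, hu⟩ := ih hs.2 hxt
      exact ⟨u, by rw [List.cons_append, hu]⟩

open Classical in
/-- the successor of `p` in direction `d` -/
noncomputable def sc [NoMaxOrder Λ] (p : TI Λ) (d : Bool) : TI Λ :=
  ⟨((exists_gt p.1.1).choose, fun c => if c < p.1.1 then p.1.2 c else if c = p.1.1 then d else false),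
    fun b hb => by
      have h := (exists_gt p.1.1).choose_spec
      have h1 : p.1.1 < b := lt_of_lt_of_le h hb
      simp only
      rw [if_neg (not_lt.2 h1.le), if_neg h1.ne']⟩

theorem sc_lt [NoMaxOrder Λ] (p : TI Λ) (d : Bool) : tlt Λ d p (sc p d) := by
  refine ⟨(exists_gt p.1.1).choose_spec, fun c hc => ?_, ?_⟩
  · simp only [sc]
    rw [if_pos hc]
  · simp [sc]

theorem fold_lt [NoMaxOrder Λ] (τ : Nd) : ∀ {d : Bool} {p q : TI Λ}, tlt Λ d p q →
    tlt Λ d p (τ.foldl sc q) := by
  induction τ with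
  | nil => intro d p q h; exact h
  | cons e τ ih => intro d p q h; exact ih (tr h (sc_lt q e))

end

theorem bti : S_BTI := by
  intro Λ _ _ _
  refine ⟨fun h h' => tr h h', fun h h' => h.2.2.symm.trans h'.2.2, ?_, ?_, ?_, ?_⟩
  · rintro d d' a b c ⟨h1, h2, h3⟩ ⟨k1, k2, k3⟩
    rcases lt_trichotomy a.1.1 b.1.1 with h | h | h
    · refine Or.inr (Or.inl ⟨b.1.2 a.1.1, h, fun x hx => ?_, rfl⟩)
      rw [← k2 x (hx.trans h), h2 x hx]
    · left
      refine Subtype.ext (Prod.ext h (funext fun x => ?_))
      rcases lt_or_ge x a.1.1 with hx | hx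
      · rw [← h2 x hx, k2 x (h ▸ hx)]
      · rw [a.2 x hx, b.2 x (h ▸ hx)]
    · refine Or.inr (Or.inr ⟨a.1.2 b.1.1, h, fun x hx => ?_, rfl⟩)
      rw [← h2 x (hx.trans h), k2 x hx]
  · refine Subrelation.wf ?_ (InvImage.wf (fun a : TI Λ => a.1.1) (wellFounded_lt (α := Λ)))
    rintro a b ⟨d, h, -⟩
    exact h
  · intro P
    classical
    let s : List Λ := (P.image (fun a => a.1.1)).sort (· ≤ ·)
    have hs : s.Pairwise (· < ·) := (Finset.sortedLT_sort _).pairwise
    refine ⟨fun b => (s.filter (fun c => decide (c < b.1.1))).map b.1.2, ?_⟩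
    rintro a ha b hb d ⟨h1, h2, h3⟩
    have hm : a.1.1 ∈ s := by
      simp only [s, Finset.mem_sort]
      exact Finset.mem_image_of_mem _ ha
    have hp := (filt s hs a.1.1 b.1.1 hm h1).map b.1.2
    rw [List.map_append, List.map_singleton, h3] at hp
    have he : (s.filter (fun c => decide (c < a.1.1))).map b.1.2 =
        (s.filter (fun c => decide (c < a.1.1))).map a.1.2 := by
      refine List.map_congr_left fun c hc => h2 c ?_
      simpa using (List.mem_filter.1 hc).2
    rwa [he] at hp
  · intro a d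
    refine ⟨fun π => π.foldl sc (sc a d), ?_, fun π => fold_lt π (sc_lt a d)⟩
    rintro π π' e ⟨τ, rfl⟩
    simp only [List.foldl_append, List.foldl_cons, List.foldl_nil]
    exact fold_lt τ (sc_lt _ e)

end Pool.Agent.K1H79.PL.Bti
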