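import Pool.Agent.K1H49.PL.Gen

/-! # Project PL, piece EXN: two lemmas on patterns -/

set_option autoImplicit false

namespace Pool.Agent.K1H79.PL.Exl

open Pool.Agent.K1H49.PL

/-- extension of patterns -/
theorem ext_pat {a N : ℕ} (h : a ≤ N) (E : LN a → Nd) (hE : Pt ndl a E) :
    ∃ E' : LN N → Nd, Pt ndl N E' ∧ ∀ η : LN a, E' ⟨η.1, η.2.trans h⟩ = E η := by
  refine ⟨fun η => E ⟨η.1.take a, by rw [List.length_take]; exact min_le_left _ _⟩ ++ η.1.drop a,
    ?_, ?_⟩
  · rintro ⟨η, hη⟩ ⟨η', hη'⟩ d hd
    simp only at hd ⊢
    obtain ⟨τ, rfl⟩ := hd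
    rcases lt_or_ge η.length a with hl | hl
    · have h1 : η.take a = η := List.take_of_length_le hl.le
      have h2 : η.drop a = [] := List.drop_of_length_le hl.le
      have h3 : (η ++ [d]) <+: (η ++ [d] ++ τ).take a := by
        rw [List.prefix_take_iff]
        refine ⟨List.prefix_append _ _, ?_⟩
        simp only [List.length_append, List.length_cons, List.length_nil]
        omega
      have h4 := hE ⟨η, hl.le⟩ ⟨(η ++ [d] ++ τ).take a, by
        rw [List.length_take]; exact min_le_left _ _⟩ d h3
      have h5 : (⟨η.take a, by rw [List.length_take]; exact min_le_left _ _⟩ : LN a) = ⟨η, hl.le⟩ :=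
        Subtype.ext h1
      unfold ndl at h4 ⊢
      rw [h5, h2, List.append_nil]
      exact h4.trans (List.prefix_append _ _)
    · have h5 : (⟨(η ++ [d] ++ τ).take a, by rw [List.length_take]; exact min_le_left _ _⟩ : LN a)
          = ⟨η.take a, by rw [List.length_take]; exact min_le_left _ _⟩ := by
        refine Subtype.ext ?_
        simp only
        rw [List.append_assoc, List.take_append_of_le_length hl]
      unfold ndl
      rw [h5, List.append_assoc, List.append_assoc, List.drop_append_of_le_length hl,
        List.prefix_append_right_inj, List.prefix_append_right_inj]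
      exact List.prefix_append _ _
  · rintro ⟨η, hη⟩
    simp only
    rw [List.drop_of_length_le hη, List.append_nil]
    congr 1
    exact Subtype.ext (List.take_of_length_le hη)

open Classical in
/-- substitution of patterns in the cones of `π` -/
theorem sub_pat {I : Type} {lt : Bool → I → I → Prop} (hB : BT lt) (π : I) {C0 C1 : Nd → I}
    (h0 : Cpy lt C0) (h0' : ∀ ν, lt false π (C0 ν)) (h1 : Cpy lt C1) (h1' : ∀ ν, lt true π (C1 ν))
    {n : ℕ} (E0 : LN n → I) (hE0 : Pt lt n E0) (E1 E2 : LN n → Nd) (hE1 : Pt ndl n E1)
    (hE2 : Pt ndl n E2) :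
    Pt lt n (fun η => if lt false π (E0 η) then C0 (E1 η) else
      if lt true π (E0 η) then C1 (E2 η) else E0 η) := by
  intro η η' d hd
  have hlt := hE0 η η' d hd
  -- below a point of the cone `e`, outside both cones
  have key : ∀ e : Bool, lt e π (E0 η') → ¬ lt false π (E0 η) → ¬ lt true π (E0 η) →
      ∀ c, lt e π c → lt d (E0 η) c := by
    intro e he hf ht c hc
    rcases hB.lin hlt he with hq | ⟨e', hq⟩ | ⟨e', hq⟩
    · rw [hq] at hlt ⊢
      rw [hB.uniq hlt he]
      exact hc
    · rw [hB.uniq hlt (hB.trans hq he)]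
      exact hB.trans hq hc
    · exfalso
      cases e' with
      | false => exact hf hq
      | true => exact ht hq
  simp only
  by_cases hf : lt false π (E0 η)
  · have hf' : lt false π (E0 η') := hB.trans hf hlt
    rw [if_pos hf, if_pos hf']
    exact h0 _ _ d (hE1 η η' d hd)
  · by_cases ht : lt true π (E0 η)
    · have ht' : lt true π (E0 η') := hB.trans ht hlt
      have hn : ¬ lt false π (E0 η') := fun h => by
        have := hB.uniq h ht'
        cases this
      rw [if_neg hf, if_pos ht, if_neg hn, if_pos ht']
      exact h1 _ _ d (hE2 η η' d hd)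
    · rw [if_neg hf, if_neg ht]
      by_cases hf' : lt false π (E0 η')
      · rw [if_pos hf']
        exact key false hf' hf ht _ (h0' _)
      · by_cases ht' : lt true π (E0 η')
        · rw [if_neg hf', if_pos ht']
          exact key true ht' hf ht _ (h1' _)
        · rw [if_neg hf', if_neg ht']
          exact hlt

end Pool.Agent.K1H79.PL.Exl
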